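import Pool.Agent.R638.BRW.Fin
import Pool.Agent.R638.BRW.K
import Pool.Agent.R638.BRW.A1
import Pool.Agent.R638.BRW.P
import Pool.Agent.R638.BRW.Q
import Pool.Agent.R638.BRW.T
import Pool.Agent.R638.BRW.D

/-! # A critical branching random walk with symmetric kernel whose trace has one end

The vertices are arranged in layers of sizes `β_k ^ 2`, `β = 1, 4, 15, 56, ...`
(`β_(k+1) = 4 β_k - β_(k-1)`), two vertices are adjacent when their layers are consecutive, and
`P x y = 1 / (4 β_k β_(k+1))`. The kernel is symmetric with spectral radius `1 / 2`, and the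
branching is binary.
-/

set_option autoImplicit false

open MeasureTheory ProbabilityTheory Set Filter Topology
open scoped ENNReal NNReal

namespace Pool.Agent.Results.MP_b68431_pr.OneEnded

open Pool.Agent.R638.BRW

theorem result :
    ∃ (V : Type) (_ : Infinite V) (_ : Countable V) (_ : MeasurableSpace V)
      (_ : DiscreteMeasurableSpace V) (G : SimpleGraph V) (P : V → PMF V) (ν : PMF ℕ)
      (ρ : ℝ≥0∞), G.Connected ∧ (∀ x, (G.neighborSet x).Finite) ∧ NearestNeighbour G P ∧
      Irred P ∧ QuasiSymmetric P ∧ 0 < ρ ∧ ρ < 1 ∧ (∀ x y, specRad P x y = ρ) ∧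
      ν 0 = 0 ∧ mean ν = ρ⁻¹ ∧
      ∀ x, ∀ᵐ ω ∂(brwMeasure P ν), numEnds (trace ω.1 ω.2 x) = 1 :=
  tMain tK1 tK2 tP tQ tT tD tA1

end Pool.Agent.Results.MP_b68431_pr.OneEnded
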